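import Pool.Agent.H.MP_e00215_an.B

namespace Pool.Agent.H.MP_f2c841_an

open Filter Topology Finset MeasureTheory ProbabilityTheory Complex
open scoped ComplexConjugate InnerProductSpace
open Pool.Agent.H.MP_e00215_an (int_bd)

def Av0 (c : ℕ → ℝ) : Prop :=
  Tendsto (fun N : ℕ => (N : ℝ)⁻¹ * ∑ n ∈ range N, c n) atTop (𝓝 0)

theorem Av0.mono {c d : ℕ → ℝ} (h : Av0 d) (h0 : ∀ n, 0 ≤ c n) (h1 : ∀ n, c n ≤ d n) : Av0 c :=
  squeeze_zero (fun N => mul_nonneg (by positivity) (sum_nonneg fun n _ => h0 n))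
    (fun N => mul_le_mul_of_nonneg_left (sum_le_sum fun n _ => h1 n) (by positivity)) h

theorem Av0.add {c d : ℕ → ℝ} (h : Av0 c) (h' : Av0 d) : Av0 fun n => c n + d n := by
  have := Tendsto.add h h'
  rw [add_zero] at this
  refine this.congr fun N => ?_
  rw [sum_add_distrib, mul_add]

theorem Av0.mul {c : ℕ → ℝ} (h : Av0 c) (t : ℝ) : Av0 fun n => t * c n := by
  have := Tendsto.const_mul t h
  rw [mul_zero] at this
  refine this.congr fun N => ?_
  rw [← mul_sum, mul_left_comm]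

theorem step {K : Type} [NormedAddCommGroup K] [NormedSpace ℂ K] (φ : ℕ → K →L[ℂ] ℂ) (C : ℝ)
    (hC : ∀ n x, ‖φ n x‖ ≤ C * ‖x‖) {S : Set K} (hS : Dense (Submodule.span ℂ S : Set K))
    (h : ∀ x ∈ S, Av0 fun n => ‖φ n x‖) (x : K) : Av0 fun n => ‖φ n x‖ := by
  have h1 : ∀ y ∈ Submodule.span ℂ S, Av0 fun n => ‖φ n y‖ := fun y hy => by
    induction hy using Submodule.span_induction with
    | mem y hy => exact h y hy
    | zero => simp [Av0]
    | add a b _ _ ha hb =>
      exact (ha.add hb).mono (fun _ => norm_nonneg _) fun n => by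
        rw [map_add]; exact norm_add_le _ _
    | smul t a _ ha =>
      exact (ha.mul ‖t‖).mono (fun _ => norm_nonneg _) fun n => by
        rw [map_smul, norm_smul]
  refine Metric.tendsto_atTop.2 fun ε hε => ?_
  obtain ⟨y, hy, hxy⟩ := hS.exists_dist_lt x (ε := ε / 2 / (|C| + 1)) (by positivity)
  obtain ⟨N0, hN0⟩ := Metric.tendsto_atTop.1 (h1 y hy) (ε / 2) (by positivity)
  refine ⟨N0, fun N hN => ?_⟩
  have h2 := hN0 N hN
  rw [Real.dist_eq, sub_zero, abs_of_nonneg (by positivity)] at h2 ⊢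
  have h3 : ∀ n, ‖φ n x‖ ≤ ‖φ n y‖ + ε / 2 := fun n => by
    have e : φ n x = φ n y + φ n (x - y) := by rw [map_sub]; ring
    rw [dist_eq_norm, lt_div_iff₀ (by positivity)] at hxy
    have := hC n (x - y)
    have := norm_add_le (φ n y) (φ n (x - y))
    rw [← e] at this
    nlinarith [le_abs_self C, norm_nonneg (x - y)]
  have h4 : ∑ n ∈ range N, ‖φ n x‖ ≤ ∑ n ∈ range N, ‖φ n y‖ + N * (ε / 2) := by
    refine (sum_le_sum fun n _ => h3 n).trans (le_of_eq ?_)
    rw [sum_add_distrib, sum_const, card_range, nsmul_eq_mul]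
  have h5 : (N:ℝ)⁻¹ * (N * (ε / 2)) ≤ ε / 2 := by
    rw [← mul_assoc]
    exact mul_le_of_le_one_left (by positivity) inv_mul_le_one
  have := mul_le_mul_of_nonneg_left h4 (inv_nonneg.2 (Nat.cast_nonneg (α := ℝ) N))
  rw [mul_add] at this
  linarith

theorem wm_of {X : Type} [MeasurableSpace X] {ν : Measure X} [IsProbabilityMeasure ν] {T : X → X}
    (hT : MeasurePreserving T ν ν) {S : Set (Lp ℂ 2 ν)}
    (hS : Dense (Submodule.span ℂ S : Set (Lp ℂ 2 ν)))
    (h : ∀ f ∈ S, ∀ g ∈ S, Av0 fun n => ‖∫ x, f (T^[n] x) * conj (g x) ∂ν -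
      (∫ x, f x ∂ν) * conj (∫ x, g x ∂ν)‖) {A B : Set X} (hA : MeasurableSet A)
    (hB : MeasurableSet B) :
    Av0 fun n => |ν.real (T^[n] ⁻¹' A ∩ B) - ν.real A * ν.real B| := by
  obtain ⟨o, ho⟩ : ∃ o : Lp ℂ 2 ν, o = indicatorConstLp 2 MeasurableSet.univ (by simp) 1 :=
    ⟨_, rfl⟩
  have ho1 : ‖o‖ = 1 := by rw [ho, norm_indicatorConstLp (by simp) (by simp)]; simp
  have ho2 : ∀ f : Lp ℂ 2 ν, ⟪o, f⟫_ℂ = ∫ x, f x ∂ν := fun f => by
    rw [ho, L2.inner_indicatorConstLp_one]; simp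
  obtain ⟨L, hL⟩ : ∃ L : ℕ → Lp ℂ 2 ν →L[ℂ] Lp ℂ 2 ν, ∀ n f, L n f =
      Lp.compMeasurePreserving _ (hT.iterate n) f - ⟪o, f⟫_ℂ • o :=
    ⟨fun n => (Lp.compMeasurePreservingₗᵢ ℂ _ (hT.iterate n)).toContinuousLinearMap -
      (innerSL ℂ o).smulRight o, fun _ _ => rfl⟩
  have hLn : ∀ n f, ‖L n f‖ ≤ 2 * ‖f‖ := fun n f => by
    rw [hL]
    refine (norm_sub_le _ _).trans ?_
    have := norm_inner_le_norm (𝕜 := ℂ) o f
    rw [Lp.norm_compMeasurePreserving, norm_smul, ho1] at *
    linarith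
  have h1 : ∀ f ∈ S, ∀ g, Av0 fun n => ‖innerSL ℂ (L n f) g‖ := fun f hf =>
    step (fun n => innerSL ℂ (L n f)) (2 * ‖f‖) (fun n g => (norm_inner_le_norm _ _).trans
      (mul_le_mul_of_nonneg_right (hLn n f) (norm_nonneg _))) hS fun g hg => by
        refine (h f hf g hg).mono (fun _ => norm_nonneg _) fun n => le_of_eq ?_
        rw [innerSL_apply_apply, norm_inner_symm, hL, inner_sub_right, inner_smul_right,
          ← inner_conj_symm g o, ho2, ho2, L2.inner_def]
        congr 2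
        refine integral_congr_ae ((Lp.coeFn_compMeasurePreserving f (hT.iterate n)).mono
          fun x hx => ?_)
        simp only [hx, RCLike.inner_apply, Function.comp_apply]
  have h2' : ∀ g f, Av0 fun n => ‖((innerSL ℂ g).comp (L n)) f‖ := fun g =>
    step (fun n => (innerSL ℂ g).comp (L n)) (‖g‖ * 2)
      (fun n f => (norm_inner_le_norm g (L n f)).trans (by
        rw [mul_assoc]; exact mul_le_mul_of_nonneg_left (hLn n f) (norm_nonneg _))) hS
      (fun f hf => (h1 f hf g).mono (fun _ => norm_nonneg _) fun n =>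
        le_of_eq (norm_inner_symm g (L n f)))
  have h2 := h2' (indicatorConstLp 2 hB (by simp) (1:ℂ)) (indicatorConstLp 2 hA (by simp) (1:ℂ))
  refine h2.mono (fun _ => abs_nonneg _) fun n => le_of_eq ?_
  rw [ContinuousLinearMap.comp_apply, innerSL_apply_apply, hL, inner_sub_right, inner_smul_right,
    Lp.indicatorConstLp_compMeasurePreserving, ho, L2.inner_indicatorConstLp_one_indicatorConstLp_one,
    L2.inner_indicatorConstLp_one_indicatorConstLp_one,
    L2.inner_indicatorConstLp_one_indicatorConstLp_one, Set.univ_inter, Set.inter_univ,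
    Set.inter_comm B, ← Real.norm_eq_abs, ← norm_real]
  push_cast
  rfl

variable {ι : Type}

noncomputable def ex (a : ι →₀ ℝ) (x : ι → ℝ) : ℂ :=
  cexp ((Finsupp.linearCombination ℝ x a : ℝ) * I)

theorem ex_meas (a : ι →₀ ℝ) : Measurable (ex a) := by
  unfold ex
  simp only [Finsupp.linearCombination_apply, Finsupp.sum]
  fun_prop

theorem ex_norm (a : ι →₀ ℝ) (x : ι → ℝ) : ‖ex a x‖ = 1 := norm_exp_ofReal_mul_I _

theorem ex_sub (a b : ι →₀ ℝ) (x : ι → ℝ) : ex (a - b) x = ex a x * conj (ex b x) := by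
  simp only [ex, map_sub, ← exp_conj, ← Complex.exp_add, map_mul, conj_ofReal, conj_I]
  congr 1
  push_cast
  ring

theorem ex_neg (b : ι →₀ ℝ) (x : ι → ℝ) : ex (-b) x = conj (ex b x) := by
  simp only [ex, map_neg, ← exp_conj, map_mul, conj_ofReal, conj_I]
  congr 1
  push_cast
  ring

theorem ex_comp {κ : Type} (a : ι →₀ ℝ) (φ : ι → κ) (x : κ → ℝ) :
    ex a (x ∘ φ) = ex (a.mapDomain φ) x := by
  rw [ex, ex, Finsupp.linearCombination_mapDomain]

theorem ext_ex {μ ν : Measure (ι → ℝ)} [IsFiniteMeasure μ] [IsFiniteMeasure ν]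
    (h : ∀ a, ∫ x, ex a x ∂μ = ∫ x, ex a x ∂ν) : μ = ν := by
  classical
  refine IsProjectiveLimit.unique (P := fun J : Finset ι => μ.map J.restrict) (fun _ => rfl)
    fun J => Measure.ext_of_charFunDual (funext fun L => ?_)
  have h1 : ∀ x : ι → ℝ, cexp (L (J.restrict x) * I) =
      ex (∑ i : J, Finsupp.single i.1 (L (Pi.single i 1))) x := fun x => by
    rw [ex, map_sum]
    congr 3
    conv_lhs => rw [← Finset.univ_sum_single (J.restrict x), map_sum]
    refine sum_congr rfl fun i _ => ?_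
    rw [Finsupp.linearCombination_single, smul_eq_mul, mul_comm, ← smul_eq_mul, ← map_smul,
      ← Pi.single_smul, smul_eq_mul, mul_one]
    rfl
  rw [charFunDual_apply, charFunDual_apply, integral_map (by fun_prop) (by fun_prop),
    integral_map (by fun_prop) (by fun_prop)]
  simp only [h1, h]

theorem real_zero {ν : Measure (ι → ℝ)} {g : (ι → ℝ) → ℝ} (hg : Integrable g ν)
    (h : ∀ a, ∫ x, ex a x * g x ∂ν = 0) : g =ᵐ[ν] 0 := by
  have key : ∀ {u : (ι → ℝ) → ℝ}, Integrable u ν → ∀ a,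
      ∫ x, ex a x ∂(ν.withDensity fun x => ENNReal.ofReal (u x)) =
        ∫ x, ex a x * ((max (u x) 0 : ℝ) : ℂ) ∂ν := fun {u} hu a => by
    rw [integral_withDensity_eq_integral_toReal_smul₀ hu.aemeasurable.ennreal_ofReal
      (ae_of_all _ fun _ => ENNReal.ofReal_lt_top)]
    refine integral_congr_ae (ae_of_all _ fun x => ?_)
    simp only [ENNReal.toReal_ofReal', real_smul, mul_comm]
  have hi : ∀ {u : (ι → ℝ) → ℝ}, Integrable u ν → ∀ a,
      Integrable (fun x => ex a x * ((max (u x) 0 : ℝ) : ℂ)) ν := fun {u} hu a =>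
    hu.pos_part.ofReal.bdd_mul (ex_meas a).aestronglyMeasurable
      (ae_of_all _ fun x => (ex_norm a x).le)
  haveI := isFiniteMeasure_withDensity_ofReal hg.2
  haveI := isFiniteMeasure_withDensity_ofReal hg.neg.2
  have h1 : (ν.withDensity fun x => ENNReal.ofReal (g x)) =
      ν.withDensity fun x => ENNReal.ofReal ((-g) x) := ext_ex fun a => by
    rw [key hg, key hg.neg, ← sub_eq_zero, ← integral_sub (hi hg a) (hi hg.neg a), ← h a]
    refine integral_congr_ae (ae_of_all _ fun x => ?_)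
    simp only [Pi.neg_apply]
    rw [← mul_sub, ← ofReal_sub, max_zero_sub_max_neg_zero_eq_self]
  have h2 := (withDensity_eq_iff hg.aemeasurable.ennreal_ofReal hg.neg.aemeasurable.ennreal_ofReal
    hg.lintegral_lt_top.ne).1 h1
  filter_upwards [h2] with x hx
  have := congrArg ENNReal.toReal hx
  simp only [ENNReal.toReal_ofReal', Pi.neg_apply] at this
  rw [← max_zero_sub_max_neg_zero_eq_self (g x), this, sub_self]; rfl

theorem ex_mem (ν : Measure (ι → ℝ)) [IsFiniteMeasure ν] (a : ι →₀ ℝ) : MemLp (ex a) 2 ν :=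
  MemLp.of_bound (ex_meas a).aestronglyMeasurable 1 (ae_of_all _ fun x => (ex_norm a x).le)

theorem ex_dense (ν : Measure (ι → ℝ)) [IsFiniteMeasure ν] :
    Dense (Submodule.span ℂ (Set.range fun a => (ex_mem ν a).toLp) : Set (Lp ℂ 2 ν)) := by
  rw [Submodule.dense_iff_topologicalClosure_eq_top, Submodule.topologicalClosure_eq_top_iff,
    eq_bot_iff]
  intro g hg
  have hgi : Integrable g ν := (Lp.memLp g).integrable (by norm_num)
  have h1 : ∀ a, ∫ x, ex a x * g x ∂ν = 0 := fun a => by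
    have := hg _ (Submodule.subset_span ⟨-a, rfl⟩)
    rw [L2.inner_def] at this
    rw [← this]
    refine integral_congr_ae ((ex_mem ν (-a)).coeFn_toLp.mono fun x hx => ?_)
    simp only [hx, RCLike.inner_apply, ex_neg, conj_conj, mul_comm]
  have h2 : ∀ a, ∫ x, ex a x * conj (g x) ∂ν = 0 := fun a => by
    have := congrArg conj (h1 (-a))
    rw [← integral_conj, map_zero] at this
    simpa only [map_mul, ex_neg, conj_conj] using this
  have hi : ∀ a, Integrable (fun x => ex a x * g x) ν := fun a =>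
    hgi.bdd_mul (ex_meas a).aestronglyMeasurable (ae_of_all _ fun x => (ex_norm a x).le)
  have hi' : ∀ a, Integrable (fun x => ex a x * conj (g x)) ν := fun a =>
    (conjCLE.toContinuousLinearMap.integrable_comp hgi).bdd_mul (ex_meas a).aestronglyMeasurable
      (ae_of_all _ fun x => (ex_norm a x).le)
  have h3 := real_zero hgi.re fun a => by
    have := integral_add (hi a) (hi' a)
    rw [h1, h2, add_zero] at this
    have e : ∀ x, ex a x * ((RCLike.re (g x) : ℝ) : ℂ) =
        (1 / 2 : ℂ) * (ex a x * g x + ex a x * conj (g x)) := fun x => by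
      rw [← mul_add, add_conj, RCLike.re_to_complex]; push_cast; ring
    simp only [e, integral_const_mul, this, mul_zero]
  have h4 := real_zero hgi.im fun a => by
    have := integral_sub (hi a) (hi' a)
    rw [h1, h2, sub_zero] at this
    have e : ∀ x, ex a x * ((RCLike.im (g x) : ℝ) : ℂ) =
        (-I / 2 : ℂ) * (ex a x * g x - ex a x * conj (g x)) := fun x => by
      rw [← mul_sub, sub_conj, RCLike.im_to_complex]; push_cast
      linear_combination (ex a x * (g x).im) * I_mul_I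
    simp only [e, integral_const_mul, this, mul_zero]
  rw [Submodule.mem_bot]
  refine Lp.ext ?_
  filter_upwards [h3, h4, Lp.coeFn_zero ℂ 2 ν] with x a b c
  rw [c]
  exact Complex.ext a b

theorem gauss [Countable ι] [Infinite ι] {H : Type} [NormedAddCommGroup H] [InnerProductSpace ℝ H]
    (v : ι → H) : ∃ ν : Measure (ι → ℝ), IsProbabilityMeasure ν ∧
      ∀ a, ∫ x, ex a x ∂ν = cexp (-(‖Finsupp.linearCombination ℝ v a‖ ^ 2 / 2 : ℝ)) := by
  obtain ⟨φ⟩ : Nonempty (ι ≃ ℕ) := nonempty_equiv_of_countable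
  obtain ⟨ν, h1, h2⟩ := Pool.Agent.H.MP_e00215_an.gauss (v ∘ φ.symm)
  have hm : Measurable fun x : ℕ → ℝ => x ∘ φ := measurable_pi_lambda _ fun i =>
    measurable_pi_apply _
  refine ⟨ν.map fun x => x ∘ φ, Measure.isProbabilityMeasure_map hm.aemeasurable, fun a => ?_⟩
  rw [integral_map hm.aemeasurable (ex_meas a).aestronglyMeasurable]
  simp only [ex_comp]
  have := h2 (a.mapDomain φ)
  rw [Finsupp.linearCombination_mapDomain, Function.comp_assoc, Equiv.symm_comp_self,
    Function.comp_id] at this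
  exact this

end Pool.Agent.H.MP_f2c841_an
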