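import Pool.Agent.H.MP_f2c841_an.A

namespace Pool.Agent.H.MP_f2c841_an

open Filter Topology Finset MeasureTheory ProbabilityTheory Complex
open scoped ComplexConjugate InnerProductSpace
open Pool.Agent.H.MP_e00215_an (int_bd)

noncomputable def ee (t : ℝ) : ℂ := cexp ((2 * Real.pi * t : ℝ) * I)

theorem ee_norm (t : ℝ) : ‖ee t‖ = 1 := norm_exp_ofReal_mul_I _

theorem ee_add (s t : ℝ) : ee (s + t) = ee s * ee t := by
  rw [ee, ee, ee, ← Complex.exp_add]; congr 1; push_cast; ring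

theorem ee_sub (s t : ℝ) : ee (s - t) = ee s * conj (ee t) := by
  simp only [ee, ← exp_conj, ← Complex.exp_add, map_mul, conj_ofReal, conj_I]
  congr 1; push_cast; ring

theorem ee_pow (n : ℕ) (t : ℝ) : ee (n * t) = ee t ^ n := by
  rw [ee, ee, ← Complex.exp_nat_mul]; congr 1; push_cast; ring

theorem ee_int (z : ℤ) : ee z = 1 := by
  rw [ee, ← exp_int_mul_two_pi_mul_I z]; congr 1; push_cast; ring

theorem ee_eq_one {t : ℝ} (h : ee t = 1) : ∃ z : ℤ, t = z := by
  obtain ⟨z, hz⟩ := exp_eq_one_iff.1 h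
  refine ⟨z, ?_⟩
  have h1 := congrArg Complex.im hz
  simp at h1
  have := Real.pi_pos
  nlinarith

theorem ee_cont : Continuous ee := by unfold ee; fun_prop

theorem ee_lip (t : ℝ) : ‖ee t - 1‖ ≤ 7 * |t| := by
  have := Real.norm_exp_I_mul_ofReal_sub_one_le (x := 2 * Real.pi * t)
  rw [mul_comm] at this
  refine this.trans ?_
  rw [Real.norm_eq_abs, abs_mul, abs_of_pos Real.two_pi_pos]
  exact mul_le_mul_of_nonneg_right (by linarith [Real.pi_lt_d2]) (abs_nonneg _)

variable {Ω : Type} [MeasurableSpace Ω] {P : Measure Ω} [IsProbabilityMeasure P]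

theorem wiener {ξ : Ω → ℝ} (hξ : Measurable ξ) (h0 : ∀ y, P {ω | ξ ω = y} = 0) {h : Ω → ℂ}
    (hh : Measurable h) {C : ℝ} (hC : ∀ ω, ‖h ω‖ ≤ C) :
    Av0 fun n => ‖∫ ω, ee (n * ξ ω) * h ω ∂P‖ := by
  have em : ∀ n : ℕ, Measurable fun z : Ω × Ω => ee (n * (ξ z.1 - ξ z.2)) := fun n =>
    ee_cont.measurable.comp (by fun_prop)
  have hm : Measurable fun z : Ω × Ω => h z.1 * conj (h z.2) :=
    (hh.comp measurable_fst).mul (continuous_conj.measurable.comp (hh.comp measurable_snd))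
  have hb : ∀ z : Ω × Ω, ‖h z.1 * conj (h z.2)‖ ≤ C * C := fun z =>
    norm_mul_le_of_le (hC _) (by simpa using hC _)
  have h1 : ∀ N : ℕ, (((N:ℝ)⁻¹ * ∑ n ∈ range N, ‖∫ ω, ee (n * ξ ω) * h ω ∂P‖ ^ 2 : ℝ) : ℂ) =
      ∫ z, ((N:ℂ)⁻¹ * ∑ n ∈ range N, ee (n * (ξ z.1 - ξ z.2))) * (h z.1 * conj (h z.2))
        ∂P.prod P := by
    intro N
    simp only [mul_assoc, sum_mul]
    rw [integral_const_mul, integral_finsetSum _ fun (n : ℕ) _ => int_bd
      (f := fun z : Ω × Ω => ee (n * (ξ z.1 - ξ z.2)) * (h z.1 * conj (h z.2)))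
      ((em n).mul hm) (1 * (C * C)) fun z => norm_mul_le_of_le (ee_norm _).le (hb z)]
    push_cast
    congr 1
    refine sum_congr rfl fun n _ => ?_
    rw [← mul_conj', ← integral_conj, ← integral_prod_mul]
    congr 1
    ext z
    simp only [mul_sub, ee_sub, map_mul]
    ring
  have h2 : ∀ᵐ z ∂P.prod P, ee (ξ z.1 - ξ z.2) ≠ 1 := by
    refine Measure.ae_prod_iff_ae_ae (measurableSet_eq_fun
      (ee_cont.measurable.comp (by fun_prop)) measurable_const).compl |>.2
        (ae_of_all _ fun s => ?_)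
    have : ∀ᵐ t ∂P, ∀ z : ℤ, ξ t ≠ ξ s - z := ae_all_iff.2 fun z => by
      rw [ae_iff]; simpa using h0 _
    filter_upwards [this] with t ht e
    obtain ⟨z, hz⟩ := ee_eq_one e
    exact ht z (by simp only at hz; linarith)
  have h3 := tendsto_integral_of_dominated_convergence (μ := P.prod P) (f := fun _ => (0 : ℂ))
      (F := fun (N : ℕ) z => ((N:ℂ)⁻¹ * ∑ n ∈ range N, ee (n * (ξ z.1 - ξ z.2))) *
        (h z.1 * conj (h z.2))) (fun _ => 1 * (C * C))
      (fun N => (((Finset.measurable_sum _ fun n _ => em n).const_mul _).mul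
        hm).aestronglyMeasurable) (integrable_const _) (fun N => ae_of_all _ fun z => ?_)
      (h2.mono fun z hz => ?_)
  · simp only [← h1, integral_zero] at h3
    have h4 := ((continuous_re.tendsto _).comp h3).sqrt
    simp only [Function.comp_def, ofReal_re, zero_re, Real.sqrt_zero] at h4
    refine squeeze_zero' (Eventually.of_forall fun N => by positivity)
      ((eventually_gt_atTop 0).mono fun N hN => Real.le_sqrt_of_sq_le ?_) h4
    have h5 : (0 : ℝ) < N := by exact_mod_cast hN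
    have := sq_sum_le_card_mul_sum_sq (s := range N) (f := fun n => ‖∫ ω, ee (n * ξ ω) * h ω ∂P‖)
    rw [card_range] at this
    rw [mul_pow]
    refine (mul_le_mul_of_nonneg_left this (by positivity)).trans (le_of_eq ?_)
    field_simp
  · refine norm_mul_le_of_le ?_ (hb z)
    rw [norm_mul, norm_inv, Complex.norm_natCast]
    refine le_trans (mul_le_mul_of_nonneg_left ?_ (by positivity)) (inv_mul_le_one (a := (N:ℝ)))
    simpa using norm_sum_le_of_le (range N) fun n _ => (ee_norm (n * (ξ z.1 - ξ z.2))).le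
  · have h4 : Tendsto (fun N : ℕ => (N:ℂ)⁻¹ * ∑ n ∈ range N, ee (n * (ξ z.1 - ξ z.2))) atTop
        (𝓝 0) := by
      refine squeeze_zero_norm (fun N => ?_)
        (tendsto_const_div_atTop_nhds_zero_nat (2 / ‖ee (ξ z.1 - ξ z.2) - 1‖))
      simp only [ee_pow]
      rw [geom_sum_eq hz, norm_mul, norm_inv, Complex.norm_natCast, norm_div, div_eq_inv_mul _ (N:ℝ)]
      gcongr
      refine (norm_sub_le _ _).trans ?_
      rw [norm_pow, ee_norm]
      norm_num
    simpa using h4.mul_const (h z.1 * conj (h z.2))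

theorem exp_lip {p q : ℝ} (hp : p ≤ 0) (hq : q ≤ 0) : |Real.exp p - Real.exp q| ≤ |p - q| := by
  have h8 := (convex_Iic (0 : ℝ)).norm_image_sub_le_of_norm_deriv_le (𝕜 := ℝ) (f := Real.exp)
    (C := 1) (fun x _ => Real.differentiableAt_exp) (fun x hx => by
      rw [Real.deriv_exp, Real.norm_of_nonneg (Real.exp_pos x).le]
      exact Real.exp_le_one_iff.2 hx) (x := q) (y := p) hq hp
  simpa using h8

def sN {J : Type} (n : ℤ) (i : ℤ × J) : ℤ × J := (i.1 + n, i.2)

def shE (J : Type) : (ℤ × J → ℝ) ≃ᵐ (ℤ × J → ℝ) where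
  toFun x := x ∘ sN 1
  invFun x := x ∘ sN (-1)
  left_inv x := by funext i; simp [sN]
  right_inv x := by funext i; simp [sN]
  measurable_toFun := measurable_pi_lambda _ fun _ => measurable_pi_apply _
  measurable_invFun := measurable_pi_lambda _ fun _ => measurable_pi_apply _

theorem shE_iter {J : Type} (n : ℕ) (x : ℤ × J → ℝ) : (shE J)^[n] x = x ∘ sN n := by
  induction n generalizing x with
  | zero => funext i; simp [sN]
  | succ n ih =>
    rw [Function.iterate_succ_apply, ih]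
    funext i
    show x (i.1 + n + 1, i.2) = x (i.1 + (n + 1 : ℕ), i.2)
    congr 2; push_cast; ring

theorem GA {J : Type} [Countable J] [Nonempty J] {ξ : Ω → ℝ} (hξ : Measurable ξ)
    (h0 : ∀ y, P {ω | ξ ω = y} = 0) (g : J → Ω → ℂ) (hg : ∀ j, Measurable (g j))
    (hg1 : ∀ j ω, ‖g j ω‖ ≤ 1) : ∃ ν : Measure (ℤ × J → ℝ), ∃ _ : IsProbabilityMeasure ν,
      MeasurePreserving (shE J) ν ν ∧ (∀ A B, MeasurableSet A → MeasurableSet B →
        Av0 fun n => |ν.real ((shE J)^[n] ⁻¹' A ∩ B) - ν.real A * ν.real B|) ∧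
      ∀ i i' : ℤ × J, ν.map (fun x => x i - x i') = gaussianReal 0 (∫ ω,
        ‖ee (i.1 * ξ ω) * g i.2 ω - ee (i'.1 * ξ ω) * g i'.2 ω‖ ^ 2 ∂P).toNNReal := by
  obtain ⟨G, hG⟩ : ∃ G : ℤ × J → Ω → ℂ, ∀ i ω, G i ω = ee (i.1 * ξ ω) * g i.2 ω :=
    ⟨fun i ω => _, fun _ _ => rfl⟩
  have Gm : ∀ i, Measurable (G i) := fun i => by
    rw [funext (hG i)]
    exact (ee_cont.measurable.comp (hξ.const_mul _)).mul (hg _)
  have Gb : ∀ i ω, ‖G i ω‖ ≤ 1 := fun i ω => by rw [hG, norm_mul, ee_norm, one_mul]; exact hg1 _ _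
  have GM : ∀ i, MemLp (G i) 2 P := fun i =>
    MemLp.of_bound (Gm i).aestronglyMeasurable 1 (ae_of_all _ (Gb i))
  obtain ⟨F, hF⟩ : ∃ F : (ℤ × J →₀ ℝ) → Ω → ℂ, ∀ a ω,
    F a ω = Finsupp.linearCombination ℝ (fun i => G i ω) a := ⟨fun a ω => _, fun _ _ => rfl⟩
  obtain ⟨V, hV⟩ : ∃ V : (ℤ × J →₀ ℝ) →ₗ[ℝ] Lp ℂ 2 P,
    V = Finsupp.linearCombination ℝ (fun i => (GM i).toLp) := ⟨_, rfl⟩
  have Fp : ∀ a, Measurable (F a) ∧ (∃ C, ∀ ω, ‖F a ω‖ ≤ C) ∧ V a =ᵐ[P] F a := fun a => by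
    induction a using Finsupp.induction_linear with
    | zero =>
      have : F 0 = 0 := funext fun ω => by simp [hF]
      rw [this, map_zero]
      exact ⟨measurable_const, ⟨0, by simp⟩, Lp.coeFn_zero _ _ _⟩
    | add a b ha hb =>
      have : F (a + b) = F a + F b := funext fun ω => by simp [hF]
      obtain ⟨a1, ⟨C, a2⟩, a3⟩ := ha
      obtain ⟨b1, ⟨D, b2⟩, b3⟩ := hb
      rw [this, map_add]
      exact ⟨a1.add b1, ⟨C + D, fun ω => norm_add_le_of_le (a2 ω) (b2 ω)⟩,
        (Lp.coeFn_add _ _).trans (a3.add b3)⟩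
    | single i t =>
      have : F (Finsupp.single i t) = t • G i := funext fun ω => by simp [hF]
      rw [this, hV, Finsupp.linearCombination_single]
      exact ⟨(Gm i).const_smul t, ⟨‖t‖ * 1, fun ω => by
        rw [Pi.smul_apply, norm_smul]; exact mul_le_mul_of_nonneg_left (Gb i ω) (norm_nonneg _)⟩,
        (Lp.coeFn_smul _ _).trans ((GM i).coeFn_toLp.const_smul t)⟩
  have Fs : ∀ (n : ℤ) a ω, F (a.mapDomain (sN n)) ω = ee (n * ξ ω) * F a ω := fun n a ω => by
    rw [hF, hF, Finsupp.linearCombination_mapDomain, Finsupp.linearCombination_apply,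
      Finsupp.linearCombination_apply, Finsupp.sum, Finsupp.sum, mul_sum]
    refine sum_congr rfl fun i _ => ?_
    simp only [Function.comp, hG, sN, Int.cast_add, add_mul, ee_add, real_smul]
    ring
  have Vn : ∀ a, ‖V a‖ ^ 2 = ∫ ω, ‖F a ω‖ ^ 2 ∂P := fun a => by
    rw [← real_inner_self_eq_norm_sq, L2.inner_def]
    exact integral_congr_ae ((Fp a).2.2.mono fun ω h => by
      simp only [h, real_inner_self_eq_norm_sq])
  have Vs : ∀ (n : ℤ) a, ‖V (a.mapDomain (sN n))‖ ^ 2 = ‖V a‖ ^ 2 := fun n a => by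
    simp only [Vn, Fs, norm_mul, ee_norm, one_mul]
  obtain ⟨ν, h1, h2⟩ := gauss (fun i => (GM i).toLp)
  rw [← hV] at h2
  have hT : MeasurePreserving (shE J) ν ν := ⟨(shE J).measurable, ext_ex fun a => by
    rw [integral_map (shE J).measurable.aemeasurable (ex_meas a).aestronglyMeasurable]
    have : ∀ x, ex a (shE J x) = ex (a.mapDomain (sN 1)) x := fun x => ex_comp a _ x
    simp only [this, h2, Vs]⟩
  refine ⟨ν, h1, hT, fun A B hA hB => wm_of hT (ex_dense ν) ?_ hA hB, fun i i' => ?_⟩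
  · rintro _ ⟨a, rfl⟩ _ ⟨b, rfl⟩
    obtain ⟨a1, ⟨C, a2⟩, -⟩ := Fp a
    obtain ⟨b1, ⟨D, b2⟩, b3⟩ := Fp b
    have hm : Measurable fun ω => F a ω * conj (F b ω) :=
      a1.mul (continuous_conj.measurable.comp b1)
    have hb : ∀ ω, ‖F a ω * conj (F b ω)‖ ≤ C * D := fun ω =>
      norm_mul_le_of_le (a2 ω) (by simpa using b2 ω)
    refine (wiener (P := P) hξ h0 hm hb).mono (fun _ => norm_nonneg _) fun n => ?_
    have e1 : ∫ x, (ex_mem ν a).toLp (ex a) ((shE J)^[n] x) * conj ((ex_mem ν b).toLp (ex b) x) ∂ν =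
        ∫ x, ex (a.mapDomain (sN n) - b) x ∂ν := by
      refine integral_congr_ae ?_
      filter_upwards [(hT.iterate n).quasiMeasurePreserving.ae_eq_comp (ex_mem ν a).coeFn_toLp,
        (ex_mem ν b).coeFn_toLp] with x c1 c2
      rw [ex_sub, ← ex_comp, ← shE_iter, c2]
      exact congrArg (· * _) c1
    rw [e1, integral_congr_ae (ex_mem ν a).coeFn_toLp, integral_congr_ae (ex_mem ν b).coeFn_toLp,
      h2, h2, h2]
    simp only [← ofReal_neg, ← ofReal_exp, conj_ofReal]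
    rw [← ofReal_mul, ← ofReal_sub, norm_real, ← Real.exp_add, Real.norm_eq_abs]
    refine (exp_lip (neg_nonpos.2 (by positivity)) (add_nonpos (neg_nonpos.2 (by positivity))
      (neg_nonpos.2 (by positivity)))).trans ?_
    rw [map_sub, norm_sub_sq_real, Vs, show -((‖V a‖ ^ 2 - 2 * ⟪V (a.mapDomain (sN n)), V b⟫_ℝ +
      ‖V b‖ ^ 2) / 2) - (-(‖V a‖ ^ 2 / 2) + -(‖V b‖ ^ 2 / 2)) = ⟪V (a.mapDomain (sN n)), V b⟫_ℝ
      by ring, real_inner_comm, L2.inner_def]
    have hi : Integrable (fun ω => ee (n * ξ ω) * (F a ω * conj (F b ω))) P :=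
      int_bd ((ee_cont.measurable.comp (hξ.const_mul _)).mul hm) (1 * (C * D))
        fun ω => norm_mul_le_of_le (ee_norm _).le (hb ω)
    refine le_trans (le_of_eq ?_) (abs_re_le_norm _)
    congr 1
    rw [← RCLike.re_to_complex, ← integral_re hi]
    refine integral_congr_ae ?_
    filter_upwards [(Fp (a.mapDomain (sN n))).2.2, b3] with ω c1 c2
    rw [c1, c2, Fs, Complex.inner, mul_assoc]
    rfl
  · have hm : Measurable fun x : ℤ × J → ℝ => x i - x i' := by fun_prop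
    have := Measure.isProbabilityMeasure_map (μ := ν) hm.aemeasurable
    refine Measure.ext_of_charFun (funext fun t => ?_)
    rw [charFun_gaussianReal, charFun_apply_real, integral_map hm.aemeasurable (by fun_prop)]
    have e1 : ∀ x : ℤ × J → ℝ, cexp (t * ((x i - x i' : ℝ) : ℂ) * I) =
        ex (Finsupp.single i t - Finsupp.single i' t) x := fun x => by
      simp only [ex, map_sub, Finsupp.linearCombination_single, smul_eq_mul]
      congr 2; push_cast; ring
    simp only [e1, h2, Vn]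
    rw [Real.coe_toNNReal _ (integral_nonneg fun ω => by positivity)]
    have e2 : ∀ ω, ‖F (Finsupp.single i t - Finsupp.single i' t) ω‖ ^ 2 =
        ‖ee (i.1 * ξ ω) * g i.2 ω - ee (i'.1 * ξ ω) * g i'.2 ω‖ ^ 2 * t ^ 2 := fun ω => by
      rw [hF, map_sub, Finsupp.linearCombination_single, Finsupp.linearCombination_single,
        ← smul_sub, norm_smul, hG, hG, mul_pow, Real.norm_eq_abs, sq_abs, mul_comm]
    simp only [e2, integral_mul_const]
    congr 1; push_cast; ring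

end Pool.Agent.H.MP_f2c841_an
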