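import Pool.Agent.H.MP_f2c841_an.B

namespace Pool.Agent.H.MP_f2c841_an

open Filter Topology Finset MeasureTheory ProbabilityTheory Complex
open scoped ComplexConjugate
open Pool.Agent.H.MP_e00215_an (int_bd)

noncomputable def mu0 : Measure ℝ := volume.restrict (Set.Ico 0 1)

instance : IsProbabilityMeasure mu0 := ⟨by simp [mu0]⟩

theorem mu0_Iio {p : ℝ} (h1 : p ≤ 1) : mu0 (Set.Iio p) = ENNReal.ofReal p := by
  rw [mu0, Measure.restrict_apply measurableSet_Iio, Set.inter_comm, Set.Ico_inter_Iio,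
    Real.volume_Ico, min_eq_right h1, sub_zero]

theorem mu0_Ici {p : ℝ} (h0 : 0 ≤ p) : mu0 (Set.Ici p) = ENNReal.ofReal (1 - p) := by
  rw [mu0, Measure.restrict_apply measurableSet_Ici, Set.inter_comm, Set.Ico_inter_Ici,
    Real.volume_Ico, max_eq_right h0]

noncomputable def PP : Measure (ℕ → ℝ) := Measure.infinitePi fun _ => mu0

instance : IsProbabilityMeasure PP := by unfold PP; infer_instance

theorem PP_ev (i : ℕ) {s : Set ℝ} (hs : MeasurableSet s) : PP {u | u i ∈ s} = mu0 s :=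
  (measurePreserving_eval_infinitePi (fun _ : ℕ => mu0) i).measure_preimage hs.nullMeasurableSet

noncomputable def tm (κ c : ℝ) (i : ℕ) (u : ℕ → ℝ) : ℝ :=
  if u i < κ / (i + 1) then c ^ (3 ^ i) else 0

noncomputable def eta (κ c : ℝ) (u : ℕ → ℝ) : ℝ := ∑' i, tm κ c i u

theorem tm_meas (κ c : ℝ) (i : ℕ) : Measurable (tm κ c i) :=
  Measurable.ite (measurableSet_lt (measurable_pi_apply i) measurable_const) measurable_const
    measurable_const

theorem tm_summ (κ : ℝ) {c : ℝ} (h0 : 0 < c) (h1 : c < 1 / 2) (u : ℕ → ℝ) :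
    Summable fun i => tm κ c i u := by
  refine (summable_geometric_of_lt_one h0.le (by linarith)).of_nonneg_of_le (fun i => ?_)
    fun i => ?_
  · unfold tm; split_ifs <;> positivity
  · unfold tm
    split_ifs
    · exact pow_le_pow_of_le_one h0.le (by linarith) (Nat.lt_pow_self (by norm_num)).le
    · positivity

theorem eta_meas (κ : ℝ) {c : ℝ} (h0 : 0 < c) (h1 : c < 1 / 2) : Measurable (eta κ c) :=
  measurable_of_tendsto_metrizable (f := fun N u => ∑ i ∈ range N, tm κ c i u)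
    (fun _ => Finset.measurable_sum _ fun i _ => tm_meas κ c i)
    (tendsto_pi_nhds.2 fun u => (tm_summ κ h0 h1 u).hasSum.tendsto_sum_nat)

theorem eta_inj (κ : ℝ) {c : ℝ} (h0 : 0 < c) (h1 : c < 1 / 2) {u v : ℕ → ℝ}
    (h : eta κ c u = eta κ c v) (i : ℕ) : u i < κ / (i + 1) ↔ v i < κ / (i + 1) := by
  classical
  have hinj : Function.Injective fun i : ℕ => 3 ^ i := Nat.pow_right_injective (by norm_num)
  have key : ∀ u : ℕ → ℝ, eta κ c u = Cardinal.cantorFunction c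
      fun n => decide (∃ i, 3 ^ i = n ∧ u i < κ / (i + 1)) := fun u => by
    rw [Cardinal.cantorFunction, ← hinj.tsum_eq]
    · refine tsum_congr fun i => ?_
      have : (∃ j, 3 ^ j = 3 ^ i ∧ u j < κ / (j + 1)) ↔ u i < κ / (i + 1) :=
        ⟨fun ⟨j, a, b⟩ => hinj a ▸ b, fun b => ⟨i, rfl, b⟩⟩
      simp only [Cardinal.cantorFunctionAux, tm, this]
      split_ifs with h <;> simp [h]
    · intro n hn
      by_contra hc
      refine hn (Cardinal.cantorFunctionAux_false ?_)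
      exact decide_eq_false fun ⟨j, a, _⟩ => hc ⟨j, a⟩
  rw [key, key] at h
  have := congrFun (Cardinal.cantorFunction_injective h0 h1 h) (3 ^ i)
  rw [decide_eq_decide] at this
  exact ⟨fun a => let ⟨_, b, c⟩ := this.1 ⟨i, rfl, a⟩; hinj b ▸ c,
    fun a => let ⟨_, b, c⟩ := this.2 ⟨i, rfl, a⟩; hinj b ▸ c⟩

theorem p_le {κ : ℝ} (h0 : 0 < κ) (i : ℕ) : κ / (i + 1) ≤ κ :=
  div_le_self h0.le (by linarith [Nat.cast_nonneg (α := ℝ) i])

theorem eta_null {κ : ℝ} (k0 : 0 < κ) (k1 : κ ≤ 1 / 2) {c : ℝ} (h0 : 0 < c) (h1 : c < 1 / 2)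
    (y : ℝ) : PP {u | eta κ c u = y} = 0 := by
  classical
  rcases Set.eq_empty_or_nonempty {u | eta κ c u = y} with h | ⟨v, hv⟩
  · rw [h, measure_empty]
  obtain ⟨t, ht⟩ : ∃ t : ℕ → Set ℝ, ∀ i, t i =
    if v i < κ / (i + 1) then Set.Iio (κ / (i + 1)) else Set.Ici (κ / (i + 1)) := ⟨_, fun _ => rfl⟩
  have hN : ∀ N, PP {u | eta κ c u = y} ≤
      ENNReal.ofReal (Real.exp (-(κ * ∑ i ∈ range N, 1 / ((i:ℝ) + 1)))) := fun N => by
    refine (measure_mono (t := Set.pi (range N : Set ℕ) t) fun u hu i _ => ?_).trans ?_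
    · have := eta_inj κ h0 h1 (hu.trans hv.symm) i
      rw [ht]
      split_ifs with h
      · exact this.2 h
      · exact not_lt.1 fun a => h (this.1 a)
    · rw [PP, Measure.infinitePi_pi _ fun i _ => by
        rw [ht]; split_ifs; exacts [measurableSet_Iio, measurableSet_Ici], mul_sum, ← sum_neg_distrib,
        Real.exp_sum, ENNReal.ofReal_prod_of_nonneg fun _ _ => (Real.exp_pos _).le]
      refine prod_le_prod' fun i _ => ?_
      have a1 := p_le k0 i
      have a2 : 0 ≤ κ / (i + 1) := by positivity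
      have a3 := Real.add_one_le_exp (-(κ * (1 / ((i:ℝ) + 1))))
      rw [mul_one_div] at a3 ⊢
      rw [ht]
      split_ifs
      · rw [mu0_Iio (by linarith)]; exact ENNReal.ofReal_le_ofReal (by linarith)
      · rw [mu0_Ici a2]; exact ENNReal.ofReal_le_ofReal (by linarith)
  have := ENNReal.tendsto_ofReal (Real.tendsto_exp_neg_atTop_nhds_zero.comp
    (Real.tendsto_sum_range_one_div_nat_succ_atTop.const_mul_atTop k0))
  rw [ENNReal.ofReal_zero] at this
  exact le_antisymm (ge_of_tendsto' this hN) zero_le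

theorem ee_tri (a b : ℝ) : ‖ee (a + b) - 1‖ ≤ ‖ee a - 1‖ + ‖ee b - 1‖ := by
  have : ee (a + b) - 1 = (ee a - 1) + ee a * (ee b - 1) := by rw [ee_add]; ring
  rw [this]
  refine (norm_add_le _ _).trans (le_of_eq ?_)
  rw [norm_mul, ee_norm, one_mul]

theorem ee_two (a : ℝ) : ‖ee a - 1‖ ≤ 2 :=
  (norm_sub_le _ _).trans (by rw [ee_norm, norm_one]; norm_num)

theorem ee_zero : ee 0 = 1 := by simpa using ee_int 0

theorem t_bd {q m n : ℕ} (hq : 2 ≤ q) (hm : m ≤ q ^ n) (hn : 1 ≤ n) :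
    (∀ i < Nat.log 3 n, ee ((m * q ^ n : ℕ) * (1 / (q:ℝ) ^ 2) ^ (3 ^ i)) = 1) ∧
    ∀ j, ‖ee ((m * q ^ n : ℕ) * (1 / (q:ℝ) ^ 2) ^ (3 ^ (Nat.log 3 n + j))) - 1‖ ≤
      7 * (1 / 2) ^ j := by
  have hq0 : (0:ℝ) < q := by exact_mod_cast (by omega : 0 < q)
  constructor
  · intro i hi
    have h1 : 3 ^ (i + 1) ≤ n := (Nat.pow_le_pow_right (by norm_num) hi).trans
      (Nat.pow_log_le_self 3 (by omega))
    obtain ⟨l, hl⟩ : ∃ l, n = 2 * 3 ^ i + l := ⟨n - 2 * 3 ^ i, by rw [pow_succ] at h1; omega⟩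
    rw [← ee_int (m * q ^ l)]
    congr 1
    rw [hl, one_div, inv_pow, ← pow_mul]
    push_cast
    field_simp
    ring
  · intro j
    rcases j with _ | j
    · exact (ee_two _).trans (by norm_num)
    refine (ee_lip _).trans (mul_le_mul_of_nonneg_left ?_ (by norm_num))
    have h1 : n + 1 ≤ 3 ^ (Nat.log 3 n + 1) := Nat.lt_pow_succ_log_self (by norm_num) n
    have h2 : j + 1 ≤ 3 ^ j := Nat.lt_pow_self (by norm_num)
    obtain ⟨l, hl⟩ : ∃ l, 3 ^ (Nat.log 3 n + (j + 1)) = n + (j + 1) + l := by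
      refine ⟨3 ^ (Nat.log 3 n + (j + 1)) - (n + (j + 1)), ?_⟩
      have : 3 ^ (Nat.log 3 n + (j + 1)) = 3 ^ (Nat.log 3 n + 1) * 3 ^ j := by ring
      have h3 : (n + 1) * (j + 1) ≤ 3 ^ (Nat.log 3 n + 1) * 3 ^ j := Nat.mul_le_mul h1 h2
      have h4 : n + (j + 1) ≤ (n + 1) * (j + 1) := by nlinarith
      omega
    have hq2 : (2:ℝ) ≤ q := by exact_mod_cast hq
    have c0 : (0:ℝ) ≤ 1 / (q:ℝ) ^ 2 := by positivity
    have c1 : 1 / (q:ℝ) ^ 2 ≤ 1 / 2 := one_div_le_one_div_of_le (by norm_num) (by nlinarith)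
    have c2 : ((m * q ^ n : ℕ) : ℝ) * (1 / (q:ℝ) ^ 2) ^ n ≤ 1 := by
      have : (m:ℝ) ≤ (q:ℝ) ^ n := by exact_mod_cast hm
      rw [one_div, inv_pow, ← pow_mul, mul_inv_le_iff₀ (by positivity), two_mul, pow_add]
      push_cast
      nlinarith [pow_pos hq0 n]
    rw [hl, abs_of_nonneg (by positivity), pow_add, pow_add, ← mul_assoc, ← mul_assoc]
    refine (mul_le_of_le_one_right (by positivity) (pow_le_one₀ c0 (by linarith))).trans ?_
    exact (mul_le_of_le_one_left (by positivity) c2).trans (pow_le_pow_left₀ c0 c1 _)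

theorem var_bd {κ : ℝ} (k0 : 0 < κ) (k1 : κ ≤ 1 / 2) {q m n : ℕ} (hq : 2 ≤ q) (hm : m ≤ q ^ n)
    (hn : 1 ≤ n) : ∫ u, ‖ee ((m * q ^ n : ℕ) * eta κ (1 / (q:ℝ) ^ 2) u) - 1‖ ^ 2 ∂PP ≤
      28 * κ / (Nat.log 3 n + 1) := by
  obtain ⟨t1, t2⟩ := t_bd hq hm hn
  have hq2 : (2:ℝ) ≤ q := by exact_mod_cast hq
  have c0 : (0:ℝ) < 1 / (q:ℝ) ^ 2 := by positivity
  have c1 : 1 / (q:ℝ) ^ 2 < 1 / 2 := one_div_lt_one_div_of_lt (by norm_num) (by nlinarith)
  generalize ((m * q ^ n : ℕ) : ℝ) = r at t1 t2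
  generalize 1 / (q:ℝ) ^ 2 = c at t1 t2 c0 c1
  generalize Nat.log 3 n = i0 at t1 t2
  have fm : ∀ N, Measurable fun u => ‖ee (r * ∑ i ∈ range N, tm κ c i u) - 1‖ ^ 2 := fun N =>
    ((ee_cont.measurable.comp ((Finset.measurable_sum _ fun i _ =>
      tm_meas κ c i).const_mul r)).sub_const 1).norm.pow_const 2
  have fb : ∀ a, ‖‖ee a - 1‖ ^ 2‖ ≤ 2 ^ 2 := fun a => by
    rw [norm_pow, norm_norm]; exact pow_le_pow_left₀ (norm_nonneg _) (ee_two _) 2
  have hl := tendsto_integral_of_dominated_convergence (μ := PP)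
    (F := fun N u => ‖ee (r * ∑ i ∈ range N, tm κ c i u) - 1‖ ^ 2)
    (f := fun u => ‖ee (r * eta κ c u) - 1‖ ^ 2) (fun _ => 2 ^ 2)
    (fun N => (fm N).aestronglyMeasurable) (integrable_const _)
    (fun N => ae_of_all _ fun u => fb _) (ae_of_all _ fun u =>
      ((((ee_cont.tendsto _).comp ((tm_summ κ c0 c1 u).hasSum.tendsto_sum_nat.const_mul
        r)).sub_const 1).norm.pow 2))
  refine le_of_tendsto' hl fun N => ?_
  have hi : ∀ i : ℕ, Integrable ({u : ℕ → ℝ | u i ∈ Set.Iio (κ / (i + 1))}.indicator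
      fun _ => 2 * ‖ee (r * c ^ 3 ^ i) - 1‖) PP := fun i =>
    (integrable_const _).indicator (measurable_pi_apply i measurableSet_Iio)
  have h1 : ∀ N u, ‖ee (r * ∑ i ∈ range N, tm κ c i u) - 1‖ * 2 ≤ ∑ i ∈ range N,
      {u : ℕ → ℝ | u i ∈ Set.Iio (κ / (i + 1))}.indicator
        (fun _ => 2 * ‖ee (r * c ^ 3 ^ i) - 1‖) u := fun N u => by
    induction N with
    | zero => simp [ee_zero]
    | succ N ih =>
      rw [sum_range_succ, sum_range_succ, mul_add]
      have := ee_tri (r * ∑ i ∈ range N, tm κ c i u) (r * tm κ c N u)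
      have e : ‖ee (r * tm κ c N u) - 1‖ * 2 = {u : ℕ → ℝ | u N ∈ Set.Iio (κ / (N + 1))}.indicator
          (fun _ => 2 * ‖ee (r * c ^ 3 ^ N) - 1‖) u := by
        by_cases h : u N < κ / (N + 1) <;> simp [tm, h, ee_zero, mul_comm]
      linarith
  refine (integral_mono (int_bd (fm N) _ fun u => fb _) (integrable_finsetSum _ fun i _ => hi i)
    fun u => le_trans ?_ (h1 N u)).trans ?_
  · rw [sq]; exact mul_le_mul_of_nonneg_left (ee_two _) (norm_nonneg _)
  rw [integral_finsetSum _ fun i _ => hi i]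
  have h2 : ∀ i : ℕ, ∫ u, {u : ℕ → ℝ | u i ∈ Set.Iio (κ / (i + 1))}.indicator
      (fun _ => 2 * ‖ee (r * c ^ 3 ^ i) - 1‖) u ∂PP =
      κ / (i + 1) * (2 * ‖ee (r * c ^ 3 ^ i) - 1‖) := fun i => by
    have hs : MeasurableSet {u : ℕ → ℝ | u i ∈ Set.Iio (κ / (i + 1))} :=
      measurable_pi_apply i measurableSet_Iio
    rw [integral_indicator_const _ hs, measureReal_def,
      PP_ev i measurableSet_Iio, mu0_Iio (by linarith [p_le k0 i]),
      ENNReal.toReal_ofReal (by positivity), smul_eq_mul]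
  simp only [h2]
  refine (sum_le_sum_of_subset_of_nonneg (range_mono (Nat.le_add_left N i0))
    fun i _ _ => by positivity).trans ?_
  rw [sum_range_add, sum_eq_zero fun i hi => by rw [t1 i (mem_range.1 hi)]; simp, zero_add]
  refine (sum_le_sum (g := fun j => 14 * κ / (i0 + 1) * (1 / 2) ^ j) fun j _ => ?_).trans ?_
  · have : κ / ((i0 + j : ℕ) + 1) ≤ κ / (i0 + 1) := div_le_div_of_nonneg_left k0.le (by positivity)
      (by push_cast; linarith [Nat.cast_nonneg (α := ℝ) j])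
    calc _ ≤ κ / (i0 + 1) * (2 * (7 * (1 / 2) ^ j)) :=
          mul_le_mul this (by linarith [t2 j]) (by positivity) (by positivity)
      _ = _ := by ring
  · rw [← mul_sum]
    have := Summable.sum_le_tsum (range N) (fun j _ => by positivity) summable_geometric_two
    rw [tsum_geometric_two] at this
    calc _ ≤ 14 * κ / (i0 + 1) * 2 := mul_le_mul_of_nonneg_left this (by positivity)
      _ = _ := by ring

theorem tail {v : NNReal} {w δ : ℝ} (hw : 0 < w) (hv : (v:ℝ) ≤ w) (hδ : 0 < δ) :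
    gaussianReal 0 v {x | δ ≤ |x|} ≤ ENNReal.ofReal (2 * Real.exp (-(δ ^ 2 / (2 * w)))) := by
  have h1 := measure_ge_le_exp_mul_mgf (μ := gaussianReal 0 v) (X := id) (t := δ / w) δ
    (by positivity) (integrable_exp_mul_gaussianReal _)
  have h2 := measure_le_le_exp_mul_mgf (μ := gaussianReal 0 v) (X := id) (t := -(δ / w)) (-δ)
    (neg_nonpos.2 (by positivity)) (integrable_exp_mul_gaussianReal _)
  rw [mgf_id_gaussianReal, ← Real.exp_add] at h1 h2
  have e : (v:ℝ) * (δ / w) ^ 2 / 2 ≤ δ ^ 2 / (2 * w) := by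
    calc _ ≤ w * (δ / w) ^ 2 / 2 := by gcongr
      _ = _ := by field_simp
  have e2 : δ / w * δ = 2 * (δ ^ 2 / (2 * w)) := by field_simp
  have h3 := h1.trans (Real.exp_le_exp.2 (show _ ≤ -(δ ^ 2 / (2 * w)) by linarith))
  have h4 := h2.trans (Real.exp_le_exp.2 (show _ ≤ -(δ ^ 2 / (2 * w)) by
    rw [neg_sq]; linarith))
  rw [← ofReal_measureReal]
  refine ENNReal.ofReal_le_ofReal ((measureReal_mono (s₂ := {ω | δ ≤ id ω} ∪ {ω | id ω ≤ -δ})
    fun x hx => ?_).trans ((measureReal_union_le _ _).trans (by linarith)))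
  rcases le_abs.1 (show δ ≤ |x| from hx) with h | h
  · exact Or.inl h
  · exact Or.inr (show x ≤ -δ by linarith)

theorem small {v : NNReal} (hv : v ≠ 0) :
    ∀ᶠ n : ℕ in atTop, gaussianReal 0 v {x | |x| < 1 / ((n:ℝ) + 1)} < ENNReal.ofReal (1 / 40) := by
  have := nullSingletonClass_gaussianReal (μ := 0) hv
  have h1 := tendsto_measure_iInter_atTop (μ := gaussianReal 0 v)
    (s := fun n : ℕ => {x | |x| < 1 / ((n:ℝ) + 1)})
    (fun n => (measurableSet_lt (by fun_prop) measurable_const).nullMeasurableSet)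
    (fun a b hab x (hx : |x| < _) => show |x| < _ from lt_of_lt_of_le hx (Nat.one_div_le_one_div hab)) ⟨0, measure_ne_top _ _⟩
  have h2 : gaussianReal 0 v (⋂ n : ℕ, {x | |x| < 1 / ((n:ℝ) + 1)}) = 0 := by
    refine measure_mono_null (t := {0}) (fun x hx => ?_) (measure_singleton _)
    by_contra h
    obtain ⟨n, hn⟩ := exists_nat_one_div_lt (abs_pos.2 h)
    exact lt_asymm hn (Set.mem_iInter.1 hx n)
  rw [h2] at h1
  exact h1.eventually (gt_mem_nhds (by simp))

end Pool.Agent.H.MP_f2c841_an
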