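import Pool.Agent.H.MP_f2c841_an.C

namespace Pool.Agent.H.MP_f2c841_an

open Filter Topology Finset MeasureTheory ProbabilityTheory Complex
open Pool.Agent.H.MP_e00215_an (int_bd)

def SS (β : Bool) : Set ℝ := cond β (Set.Iio (1 / 2)) (Set.Ici (1 / 2))

def qq (β : Bool) : ℕ := cond β 2 3

theorem SS_meas (β : Bool) : MeasurableSet {u : ℕ → ℝ | u 0 ∈ SS β} := by
  cases β
  exacts [measurable_pi_apply 0 measurableSet_Ici, measurable_pi_apply 0 measurableSet_Iio]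

theorem SS_PP (β : Bool) : PP.real {u : ℕ → ℝ | u 0 ∈ SS β} = 1 / 2 := by
  rw [measureReal_def]
  cases β
  · rw [SS, cond_false, PP_ev 0 measurableSet_Ici, mu0_Ici (by norm_num),
      ENNReal.toReal_ofReal (by norm_num)]
    norm_num
  · rw [SS, cond_true, PP_ev 0 measurableSet_Iio, mu0_Iio (by norm_num),
      ENNReal.toReal_ofReal (by norm_num)]

noncomputable def gg (j : Bool × ℕ) : (ℕ → ℝ) → ℂ :=
  {u : ℕ → ℝ | u 0 ∈ SS j.1}.indicator fun _ => ee (j.2 / 5)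

noncomputable def xi (κ : ℝ) (u : ℕ → ℝ) : ℝ :=
  1 / 5 + if u 0 < 1 / 2 then eta κ (1 / ((2:ℕ):ℝ) ^ 2) u else eta κ (1 / ((3:ℕ):ℝ) ^ 2) u

theorem gg_meas (j : Bool × ℕ) : Measurable (gg j) := measurable_const.indicator (SS_meas _)

theorem gg_le (j : Bool × ℕ) (u : ℕ → ℝ) : ‖gg j u‖ ≤ 1 :=
  (norm_indicator_le_norm_self _ _).trans (ee_norm _).le

theorem xi_meas (κ : ℝ) : Measurable (xi κ) :=
  (Measurable.ite (measurableSet_lt (measurable_pi_apply 0) measurable_const)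
    (eta_meas κ (by norm_num) (by norm_num)) (eta_meas κ (by norm_num) (by norm_num))).const_add _

theorem xi_null {κ : ℝ} (k0 : 0 < κ) (k1 : κ ≤ 1 / 2) (y : ℝ) : PP {u | xi κ u = y} = 0 := by
  refine measure_mono_null (fun u (hu : xi κ u = y) => ?_) (measure_union_null
    (eta_null k0 k1 (c := 1 / ((2:ℕ):ℝ) ^ 2) (by norm_num) (by norm_num) (y - 1 / 5))
    (eta_null k0 k1 (c := 1 / ((3:ℕ):ℝ) ^ 2) (by norm_num) (by norm_num) (y - 1 / 5)))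
  unfold xi at hu
  split_ifs at hu
  · exact Or.inl (show _ = _ by linarith)
  · exact Or.inr (show _ = _ by linarith)

theorem xi_eq (κ : ℝ) {β : Bool} {u : ℕ → ℝ} (h : u 0 ∈ SS β) :
    xi κ u = 1 / 5 + eta κ (1 / (qq β : ℝ) ^ 2) u := by
  cases β
  · rw [xi, if_neg (not_lt.2 h)]; rfl
  · rw [xi, if_pos (show u 0 < 1 / 2 from h)]; rfl

noncomputable def vv (_ : Bool) (c : ℕ) : NNReal := (1 / 2 * ‖1 - ee (c / 5)‖ ^ 2).toNNReal

theorem vv_ne (β : Bool) {c : ℕ} (h1 : 0 < c) (h2 : c < 5) : vv β c ≠ 0 := by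
  have : 1 - ee (c / 5) ≠ 0 := fun h => by
    obtain ⟨z, hz⟩ := ee_eq_one (sub_eq_zero.1 h).symm
    have : (c:ℤ) = 5 * z := by
      have : (c:ℝ) = 5 * z := by linarith
      exact_mod_cast this
    omega
  exact (Real.toNNReal_pos.2 (by positivity)).ne'

theorem var1 (κ : ℝ) (β : Bool) (c : ℕ) : (∫ u, ‖ee ((0:ℤ) * xi κ u) * gg (β, 0) u -
    ee ((0:ℤ) * xi κ u) * gg (β, c) u‖ ^ 2 ∂PP).toNNReal = vv β c := by
  rw [vv, ← SS_PP β, ← smul_eq_mul, ← integral_indicator_const _ (SS_meas β)]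
  congr 2
  ext u
  by_cases h : u 0 ∈ SS β <;> simp [gg, h, ee_zero]

theorem var2 {κ : ℝ} (k0 : 0 < κ) (k1 : κ ≤ 1 / 2) (β : Bool) {m n : ℕ} (hm : m ≤ qq β ^ n)
    (hn : 1 ≤ n) : ∫ u, ‖ee (((m * qq β ^ n : ℕ) : ℤ) * xi κ u) * gg (β, 0) u -
      ee ((0:ℤ) * xi κ u) * gg (β, m * qq β ^ n % 5) u‖ ^ 2 ∂PP ≤ 28 * κ / (Nat.log 3 n + 1) := by
  have hq : 2 ≤ qq β := by cases β <;> simp [qq]
  refine le_trans ?_ (var_bd k0 k1 hq hm hn)
  have hq2 : (2:ℝ) ≤ qq β := by exact_mod_cast hq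
  generalize m * qq β ^ n = r
  refine integral_mono_of_nonneg (ae_of_all _ fun u => by positivity)
    (int_bd (((ee_cont.measurable.comp ((eta_meas κ (by positivity)
      (one_div_lt_one_div_of_lt (by norm_num) (by nlinarith))).const_mul _)).sub_const
      1).norm.pow_const 2) (2 ^ 2) fun u => ?_) (ae_of_all _ fun u => ?_)
  · rw [norm_pow, norm_norm]; exact pow_le_pow_left₀ (norm_nonneg _) (ee_two _) 2
  by_cases h : u 0 ∈ SS β
  · have e1 : ee ((r:ℤ) * xi κ u) = ee ((r % 5 : ℕ) / 5) * ee (r * eta κ (1 / (qq β : ℝ) ^ 2) u) := by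
      rw [xi_eq κ h, ← mul_one (ee ((r % 5 : ℕ) / 5)), ← ee_int (r / 5 : ℕ), ← ee_add, ← ee_add]
      congr 1
      have : (r:ℝ) = (r % 5 : ℕ) + 5 * (r / 5 : ℕ) := by exact_mod_cast (Nat.mod_add_div r 5).symm
      simp only [Int.cast_natCast]
      linear_combination (1 / 5) * this
    have e2 : ee ((r:ℤ) * xi κ u) * gg (β, 0) u - ee ((0:ℤ) * xi κ u) * gg (β, r % 5) u =
        ee ((r % 5 : ℕ) / 5) * (ee (r * eta κ (1 / (qq β : ℝ) ^ 2) u) - 1) := by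
      have : ∀ c, gg (β, c) u = ee (c / 5) := fun c => Set.indicator_of_mem
        (s := {u : ℕ → ℝ | u 0 ∈ SS β}) h _
      rw [e1, this, this]
      simp only [Int.cast_zero, zero_mul, Nat.cast_zero, zero_div, ee_zero]
      ring
    dsimp only
    rw [e2, norm_mul, ee_norm, one_mul]
  · have : ∀ c, gg (β, c) u = 0 := fun c => Set.indicator_of_notMem
        (s := {u : ℕ → ℝ | u 0 ∈ SS β}) h _
    dsimp only
    rw [this, this]
    simp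

theorem ex_bd {l : ℝ} (l0 : 0 < l) (l1 : l ≤ 1) {N K : ℕ} (h : K ≤ 2 * N) :
    (l / 81) ^ (Nat.log 3 N + 1) ≤ 4 * l * (1 / ((N:ℝ) + 1) ^ 2 * (1 / ((K:ℝ) + 1) ^ 2)) := by
  have h1 : ((N:ℝ) + 1) ≤ 3 ^ (Nat.log 3 N + 1) := by
    exact_mod_cast Nat.lt_pow_succ_log_self (b := 3) (by norm_num) N
  have h2 : (K:ℝ) + 1 ≤ 2 * ((N:ℝ) + 1) := by
    have : (K:ℝ) ≤ 2 * N := by exact_mod_cast h
    linarith
  have h3 : l ^ (Nat.log 3 N + 1) ≤ l := pow_le_of_le_one l0.le l1 (by omega)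
  have h4 : ((N:ℝ) + 1) ^ 4 ≤ 81 ^ (Nat.log 3 N + 1) := by
    rw [show (81:ℝ) = 3 ^ 4 by norm_num, ← pow_mul, mul_comm, pow_mul]
    exact pow_le_pow_left₀ (by positivity) h1 4
  have h5 : ((K:ℝ) + 1) ^ 2 ≤ (2 * ((N:ℝ) + 1)) ^ 2 := pow_le_pow_left₀ (by positivity) h2 2
  rw [div_pow]
  calc _ ≤ l / ((N:ℝ) + 1) ^ 4 := div_le_div₀ l0.le h3 (by positivity) h4
    _ = 4 * l * (1 / ((N:ℝ) + 1) ^ 2 * (1 / (2 * ((N:ℝ) + 1)) ^ 2)) := by field_simp; ring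
    _ ≤ _ := by gcongr

def bb (p : ℕ × ℕ) : Bool := decide (3 ^ p.2 ≤ 2 ^ p.1)

theorem bad2 {κ δ l : ℝ} (k0 : 0 < κ) (k1 : κ ≤ 1 / 2) (hδ : 0 < δ) (l0 : 0 < l) (l1 : l ≤ 1)
    (hκ : -(δ ^ 2 / (56 * κ)) ≤ Real.log (l / 81)) {n k : ℕ} (hn : 1 ≤ n) (hk : 1 ≤ k) :
    gaussianReal 0 (∫ u, ‖ee (((2 ^ n * 3 ^ k : ℕ) : ℤ) * xi κ u) * gg (bb (n, k), 0) u -
      ee ((0:ℤ) * xi κ u) * gg (bb (n, k), 2 ^ n * 3 ^ k % 5) u‖ ^ 2 ∂PP).toNNReal {x | δ ≤ |x|} ≤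
      ENNReal.ofReal (8 * l * (1 / ((n:ℝ) + 1) ^ 2 * (1 / ((k:ℝ) + 1) ^ 2))) := by
  have key : ∀ (β : Bool) (m N K : ℕ), m ≤ qq β ^ N → 1 ≤ N → K ≤ 2 * N →
      gaussianReal 0 (∫ u, ‖ee (((m * qq β ^ N : ℕ) : ℤ) * xi κ u) * gg (β, 0) u -
      ee ((0:ℤ) * xi κ u) * gg (β, m * qq β ^ N % 5) u‖ ^ 2 ∂PP).toNNReal {x | δ ≤ |x|} ≤
      ENNReal.ofReal (8 * l * (1 / ((N:ℝ) + 1) ^ 2 * (1 / ((K:ℝ) + 1) ^ 2))) := by
    intro β m N K hm hN hK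
    refine (tail (w := 28 * κ / (Nat.log 3 N + 1)) (by positivity) ?_ hδ).trans
      (ENNReal.ofReal_le_ofReal ?_)
    · rw [Real.coe_toNNReal']
      exact max_le (var2 k0 k1 β hm hN) (by positivity)
    have h1 := ex_bd l0 l1 hK
    have h2 : Real.exp (-(δ ^ 2 / (2 * (28 * κ / (Nat.log 3 N + 1))))) ≤
        (l / 81) ^ (Nat.log 3 N + 1) := by
      rw [← Real.exp_log (show 0 < l / 81 by positivity), ← Real.exp_nat_mul, Real.exp_le_exp]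
      refine le_trans (le_of_eq ?_) (mul_le_mul_of_nonneg_left hκ (by positivity))
      push_cast
      field_simp
      ring
    linarith
  by_cases h : 3 ^ k ≤ 2 ^ n
  · have : bb (n, k) = true := decide_eq_true h
    rw [this, mul_comm (2 ^ n)]
    refine key true _ n k h hn ?_
    have := (Nat.pow_le_pow_left (show 2 ≤ 3 by norm_num) k).trans h
    have := (Nat.pow_le_pow_iff_right (by norm_num)).1 this
    omega
  · have : bb (n, k) = false := decide_eq_false h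
    rw [this, mul_comm (1 / ((n:ℝ) + 1) ^ 2)]
    refine key false _ k n (not_le.1 h).le hk ?_
    have := (not_le.1 h).le.trans (Nat.pow_le_pow_left (show 3 ≤ 2 ^ 2 by norm_num) k)
    rw [← pow_mul] at this
    exact (Nat.pow_le_pow_iff_right (by norm_num)).1 this

theorem main : ∃ ν : Measure (ℤ × (Bool × ℕ) → ℝ), ∃ _ : IsProbabilityMeasure ν,
      MeasurePreserving (shE _) ν ν ∧ (∀ A B, MeasurableSet A → MeasurableSet B →
        Av0 fun n => |ν.real ((shE _)^[n] ⁻¹' A ∩ B) - ν.real A * ν.real B|) ∧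
      ∃ A, MeasurableSet A ∧ 0 < ν A ∧ ∀ n k : ℕ, 1 ≤ n → 1 ≤ k →
        A ∩ (shE _)^[2 ^ n * 3 ^ k] ⁻¹' A = ∅ := by
  obtain ⟨n0, hn0⟩ := (eventually_all.2 fun j : Bool × Fin 4 =>
    small (vv_ne j.1 (c := j.2 + 1) (by omega) (by omega))).exists
  obtain ⟨δ, hδ⟩ : ∃ δ : ℝ, 2 * δ = 1 / ((n0:ℝ) + 1) := ⟨1 / ((n0:ℝ) + 1) / 2, by ring⟩
  have δ0 : 0 < δ := by
    have : (0:ℝ) < 1 / ((n0:ℝ) + 1) := by positivity
    linarith
  rw [← hδ] at hn0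
  have hw : Summable fun n : ℕ => 1 / ((n:ℝ) + 1) ^ 2 := by
    simpa using (summable_nat_add_iff 1).2 (Real.summable_one_div_nat_pow.2 one_lt_two)
  have hw2 : Summable fun p : ℕ × ℕ => 1 / ((p.1:ℝ) + 1) ^ 2 * (1 / ((p.2:ℝ) + 1) ^ 2) :=
    hw.mul_of_nonneg hw (fun _ => by positivity) fun _ => by positivity
  obtain ⟨S, hS⟩ : ∃ S, S = ∑' p : ℕ × ℕ, 1 / ((p.1:ℝ) + 1) ^ 2 * (1 / ((p.2:ℝ) + 1) ^ 2) := ⟨_, rfl⟩
  have S0 : 0 ≤ S := hS ▸ tsum_nonneg fun _ => by positivity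
  obtain ⟨l, hl⟩ : ∃ l, l = 1 / (32 * (S + 1)) := ⟨_, rfl⟩
  have l0 : 0 < l := by rw [hl]; positivity
  have l1 : l ≤ 1 := by rw [hl, div_le_one (by positivity)]; linarith
  have l2 : 8 * l * S ≤ 1 / 4 := by
    rw [hl, mul_one_div, div_mul_eq_mul_div, div_le_iff₀ (by positivity)]; linarith
  have L0 : 0 < -Real.log (l / 81) := neg_pos.2 (Real.log_neg (by positivity) (by linarith))
  obtain ⟨κ, k0, k1, hκ⟩ : ∃ κ : ℝ, 0 < κ ∧ κ ≤ 1 / 2 ∧ -(δ ^ 2 / (56 * κ)) ≤ Real.log (l / 81) := by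
    have a : 0 < min (1 / 2) (δ ^ 2 / (56 * -Real.log (l / 81))) := lt_min (by norm_num) (by positivity)
    refine ⟨_, a, min_le_left _ _, neg_le.2 ?_⟩
    have := (le_div_iff₀ (by positivity)).1 (min_le_right (1 / 2) (δ ^ 2 / (56 * -Real.log (l / 81))))
    rw [le_div_iff₀ (by positivity)]
    linarith
  obtain ⟨ν, hν, h1, h2, h3⟩ := GA (P := PP) (xi_meas κ) (xi_null k0 k1) gg gg_meas gg_le
  refine ⟨ν, hν, h1, h2, ?_⟩
  have md : ∀ i i' : ℤ × (Bool × ℕ), Measurable fun x : ℤ × (Bool × ℕ) → ℝ => x i - x i' :=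
    fun i i' => (measurable_pi_apply i).sub (measurable_pi_apply i')
  have m1 : MeasurableSet {x : ℝ | |x| < 2 * δ} := measurableSet_lt (by fun_prop) measurable_const
  have m2 : MeasurableSet {x : ℝ | δ ≤ |x|} := measurableSet_le measurable_const (by fun_prop)
  obtain ⟨B1, hB1⟩ : ∃ B1 : Bool × Fin 4 → Set (ℤ × (Bool × ℕ) → ℝ), ∀ j, B1 j =
    (fun x => x (0, j.1, 0) - x (0, j.1, j.2 + 1)) ⁻¹' {x | |x| < 2 * δ} := ⟨_, fun _ => rfl⟩
  obtain ⟨B2, hB2⟩ : ∃ B2 : ℕ × ℕ → Set (ℤ × (Bool × ℕ) → ℝ), ∀ p, B2 p =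
    if 1 ≤ p.1 ∧ 1 ≤ p.2 then (fun x => x ((2 ^ p.1 * 3 ^ p.2 : ℕ), bb p, 0) -
      x (0, bb p, 2 ^ p.1 * 3 ^ p.2 % 5)) ⁻¹' {x | δ ≤ |x|} else ∅ := ⟨_, fun _ => rfl⟩
  have mB : MeasurableSet ((⋃ j, B1 j) ∪ ⋃ p, B2 p) := by
    refine (MeasurableSet.iUnion fun j => ?_).union (MeasurableSet.iUnion fun p => ?_)
    · rw [hB1]; exact md _ _ m1
    · rw [hB2]; split_ifs; exacts [md _ _ m2, MeasurableSet.empty]
  have b1 : ν (⋃ j, B1 j) ≤ ENNReal.ofReal (1 / 5) := by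
    refine (measure_iUnion_fintype_le _ _).trans ((sum_le_sum (g := fun _ => ENNReal.ofReal (1 / 40))
      fun j _ => ?_).trans (le_of_eq ?_))
    · rw [hB1, ← Measure.map_apply (md _ _) m1, h3, var1]
      exact (hn0 j).le
    · rw [← ENNReal.ofReal_sum_of_nonneg fun _ _ => by norm_num]
      congr 1
      simp; norm_num
  have b2 : ν (⋃ p, B2 p) ≤ ENNReal.ofReal (1 / 4) := by
    refine (measure_iUnion_le _).trans ((ENNReal.tsum_le_tsum (g := fun p : ℕ × ℕ => ENNReal.ofReal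
      (8 * l * (1 / ((p.1:ℝ) + 1) ^ 2 * (1 / ((p.2:ℝ) + 1) ^ 2)))) fun p => ?_).trans ?_)
    · rw [hB2]
      split_ifs with h
      · rw [← Measure.map_apply (md _ _) m2, h3]
        exact bad2 k0 k1 δ0 l0 l1 hκ h.1 h.2
      · simp
    · rw [← ENNReal.ofReal_tsum_of_nonneg (fun _ => by positivity) (hw2.mul_left _), tsum_mul_left,
        ← hS]
      exact ENNReal.ofReal_le_ofReal l2
  obtain ⟨C, hC⟩ : ∃ C : (Bool → ℤ) → Set (ℤ × (Bool × ℕ) → ℝ), ∀ a, C a =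
    ⋂ β, {x | ⌊x (0, β, 0) / δ⌋ = a β} := ⟨_, fun _ => rfl⟩
  have mC : ∀ a, MeasurableSet (C a) := fun a => by
    rw [hC]
    refine MeasurableSet.iInter fun β => ?_
    have : Measurable fun x : ℤ × (Bool × ℕ) → ℝ => ⌊x (0, β, 0) / δ⌋ :=
      Measurable.floor (by fun_prop)
    exact this (measurableSet_singleton (a β))
  obtain ⟨a, ha⟩ : ∃ a, 0 < ν (((⋃ j, B1 j) ∪ ⋃ p, B2 p)ᶜ ∩ C a) := by
    by_contra hc
    push Not at hc
    have c1 : ν ((⋃ j, B1 j) ∪ ⋃ p, B2 p)ᶜ = 0 := by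
      refine measure_mono_null (fun x hx => ?_)
        (measure_iUnion_null fun a => le_antisymm (hc a) zero_le)
      refine Set.mem_iUnion.2 ⟨fun β => ⌊x (0, β, 0) / δ⌋, hx, ?_⟩
      rw [hC]; exact Set.mem_iInter.2 fun _ => rfl
    have c2 := (measure_union_le _ _).trans (add_le_add b1 b2)
    rw [(prob_compl_eq_zero_iff mB).1 c1, ← ENNReal.ofReal_add (by norm_num) (by norm_num),
      ENNReal.one_le_ofReal] at c2
    norm_num at c2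
  refine ⟨_, mB.compl.inter (mC a), ha, fun n k hn hk => Set.eq_empty_of_forall_notMem ?_⟩
  rintro x ⟨⟨hx, hx1⟩, -, hx2⟩
  rw [Set.mem_compl_iff, Set.mem_union, not_or, Set.mem_iUnion, Set.mem_iUnion, not_exists,
    not_exists] at hx
  have hr : 2 ^ n * 3 ^ k % 5 ≠ 0 := fun h => by
    have h5 : Nat.Prime 5 := by norm_num
    rcases (Nat.Prime.dvd_mul h5).1 (Nat.dvd_of_mod_eq_zero h) with h | h
    all_goals have := h5.dvd_of_dvd_pow h; omega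
  have d2 := hx.2 (n, k)
  rw [hB2, if_pos ⟨hn, hk⟩] at d2
  have hlt := Nat.mod_lt (2 ^ n * 3 ^ k) (show 0 < 5 by norm_num)
  have d1 := hx.1 (bb (n, k), ⟨2 ^ n * 3 ^ k % 5 - 1, by omega⟩)
  rw [hB1] at d1
  rw [hC, Set.mem_iInter] at hx1 hx2
  have d3 := Int.abs_sub_lt_one_of_floor_eq_floor ((hx1 (bb (n, k))).trans (hx2 (bb (n, k))).symm)
  rw [shE_iter, ← sub_div, abs_div, abs_of_pos δ0, div_lt_one δ0] at d3
  simp only [Set.mem_preimage, Set.mem_ofPred_eq, not_lt, not_le, Function.comp, sN, zero_add,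
    Nat.sub_add_cancel (Nat.pos_of_ne_zero hr)] at d1 d2 d3
  have := abs_sub_le (x (0, bb (n, k), 0)) (x ((2 ^ n * 3 ^ k : ℕ), bb (n, k), 0))
    (x (0, bb (n, k), 2 ^ n * 3 ^ k % 5))
  linarith

end Pool.Agent.H.MP_f2c841_an
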